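import Pool.Agent.H20.JointF

namespace Pool.Agent.Results.MP_66cbdd_co.Exponent

open H20.Joint

theorem result : ∀ n r : ℕ, 1 ≤ r → 2 * r ≤ n →
    (∀ L : ℕ, (Jn n L : ℝ) ≤ (n + 2) * (L : ℝ) ^ ((3 * r - 1 : ℝ) / (2 * r - 1))) ∧
    (∀ ε : ℝ, 0 < ε → ∃ L₀ : ℕ, ∀ L : ℕ, L₀ ≤ L → (L : ℝ) ^ ((3 : ℝ) / 2 - ε) ≤ Jn n L) :=
  final

end Pool.Agent.Results.MP_66cbdd_co.Exponent
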